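import Mathlib
import Pool.Agent.TH885.NW.Final
import Pool.Agent.TH885.NW.Exp2

set_option autoImplicit false

/-!
# The Harbourne-Hirschowitz conjecture for arbitrary vectors and every number `n ≥ 10` of points

Let `w i` be arbitrary multiplicities at `n` general points of the complex projective plane,
`W = ∑ w i` and `W b = ∑ max (w i) b`.

Part one: for every `n ≥ 10` the linear system of forms of degree `d` with these multiplicities is
not special in each of the ranges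
* `√n d < W`,
* `n (n / 2 - 11 √n / 6 + 2) ≤ W` and `√n (d + 11 / 6) + 9 / 8 < W + n / 2`,
* `n + W b < √n (d + 3)` for some `b` with `w i ≤ b + 1` for all `i`,
* `W b + n / 2 + √n / 3 + 1 / 8 < √n (d + 3 / 2)` for some `b` with `w i ≤ b + 1` for all `i`.

Part two: for every `ε > 0` there is `N` such that for ALL `n ≥ N` the system is not special in each
of the ranges
* `n (n / 2 + 2) ≤ W` and `d + 3 / 2 + ε ≤ (W + n / 2) / √n`,
* `(W b + n / 2) / √n + ε ≤ d + 3 / 2` for some `b` with `w i ≤ b + 1` for all `i`.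
-/

namespace Pool.Agent.Results.MP_6b2d39_ag.AllNumbersOfPoints

open MvPolynomial

/-- Forms of degree `d` vanishing to order at least `w i` at the points `(P i 0 : P i 1 : 1)`. -/
noncomputable def forms {n : ℕ} (P : Fin n → Fin 2 → ℂ) (d : ℕ) (w : Fin n → ℕ) :
    Submodule ℂ (MvPolynomial (Fin 3) ℂ) :=
  homogeneousSubmodule (Fin 3) ℂ d ⊓
    Submodule.restrictScalars ℂ
      (⨅ i : Fin n, (Ideal.span {X 0 - C (P i 0) * X 2, X 1 - C (P i 1) * X 2} :
        Ideal (MvPolynomial (Fin 3) ℂ)) ^ (w i))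

/-- The system of the forms of degree `d` with multiplicities `w` at the points `P` is not special:
its vector space dimension is `max (0, (d + 2) (d + 1) / 2 - ∑ (w i + 1) (w i) / 2)`. -/
def NonSpecial {n : ℕ} (P : Fin n → Fin 2 → ℂ) (d : ℕ) (w : Fin n → ℕ) : Prop :=
  (Module.finrank ℂ ↥(forms P d w) : ℤ) =
    max 0 (((d + 2).choose 2 : ℤ) - ∑ i, ((w i + 1).choose 2 : ℤ))

theorem nonSpecial_of {n : ℕ} {P : Fin n → Fin 2 → ℂ} {d : ℕ} {w : Fin n → ℕ}
    (h : Pool.Agent.H932R3.ExpDim ℂ w P d) : NonSpecial P d w := by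
  unfold Pool.Agent.H932R3.ExpDim at h
  unfold NonSpecial forms
  rw [h]
  have e : ∑ i, ((w i + 1).choose 2 : ℤ) = ((∑ i, (w i + 1).choose 2 : ℕ) : ℤ) := by
    push_cast
    rfl
  rw [e]
  omega

theorem result :
    (∀ n : ℕ, 10 ≤ n → ∀ w : Fin n → ℕ, ∃ F : MvPolynomial (Fin n × Fin 2) ℂ, F ≠ 0 ∧
      ∀ P : Fin n → Fin 2 → ℂ, eval (fun ij : Fin n × Fin 2 => P ij.1 ij.2) F ≠ 0 →
        ∀ d : ℕ,
          (Real.sqrt n * d < ∑ i, (w i : ℝ) ∨
            ((n : ℝ) * (n / 2 - 11 / 6 * Real.sqrt n + 2) ≤ ∑ i, (w i : ℝ) ∧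
              Real.sqrt n * (d + 11 / 6) + 9 / 8 < (∑ i, (w i : ℝ)) + n / 2) ∨
            ∃ b : ℕ, (∀ i, w i ≤ b + 1) ∧
              ((n : ℝ) + ∑ i, ((max (w i) b : ℕ) : ℝ) < Real.sqrt n * (d + 3) ∨
                (∑ i, ((max (w i) b : ℕ) : ℝ)) + n / 2 + Real.sqrt n / 3 + 1 / 8 <
                  Real.sqrt n * (d + 3 / 2))) →
          NonSpecial P d w) ∧
    (∀ ε : ℝ, 0 < ε → ∃ N : ℕ, ∀ n : ℕ, N ≤ n → ∀ w : Fin n → ℕ,
      ∃ F : MvPolynomial (Fin n × Fin 2) ℂ, F ≠ 0 ∧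
      ∀ P : Fin n → Fin 2 → ℂ, eval (fun ij : Fin n × Fin 2 => P ij.1 ij.2) F ≠ 0 →
        ∀ d : ℕ,
          (((n : ℝ) * (n / 2 + 2) ≤ ∑ i, (w i : ℝ) ∧
              (d : ℝ) + 3 / 2 + ε ≤ ((∑ i, (w i : ℝ)) + n / 2) / Real.sqrt n) ∨
            ∃ b : ℕ, (∀ i, w i ≤ b + 1) ∧
              ((∑ i, ((max (w i) b : ℕ) : ℝ)) + n / 2) / Real.sqrt n + ε ≤ (d : ℝ) + 3 / 2) →
          NonSpecial P d w) := by
  constructor
  · intro n hn w
    obtain ⟨F, hF, hF'⟩ := TH885.NW.exp_cut2 hn w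
    refine ⟨F.map (algebraMap ℚ ℂ), H932R3.map_ne_zero_of hF, fun P hP d hd => ?_⟩
    rw [MvPolynomial.eval_map] at hP
    refine nonSpecial_of (hF' P hP d ?_)
    rcases hd with hd | ⟨hd1, hd2⟩ | hd
    · exact Or.inl hd
    · exact Or.inr (Or.inl ⟨TH885.NW.exists_k hn hd1, hd2⟩)
    · exact Or.inr (Or.inr hd)
  · intro ε hε
    obtain ⟨N, -, h⟩ := TH885.NW.all_cut hε
    refine ⟨N, fun n hn w => ?_⟩
    obtain ⟨F, hF, hF'⟩ := h n hn w
    refine ⟨F.map (algebraMap ℚ ℂ), H932R3.map_ne_zero_of hF, fun P hP d hd => ?_⟩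
    rw [MvPolynomial.eval_map] at hP
    exact nonSpecial_of (hF' P hP d (Or.inr hd))

end Pool.Agent.Results.MP_6b2d39_ag.AllNumbersOfPoints
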