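import Mathlib
import Pool.Agent.TH759.EV.Arb

set_option autoImplicit false

/-!
# The Harbourne-Hirschowitz conjecture at eleven and thirteen points, arbitrary multiplicities

Let `n = 11` or `n = 13`, let `w i` be arbitrary multiplicities at `n` general points of the complex
projective plane, `W = ∑ w i`, `W b = ∑ max (w i) b` and `g = ⌊d / √n⌋`. The linear system of forms of
degree `d` with these multiplicities is not special if
* `√n (2 d + 3) < n + 2 W` and `3` does not divide `d`,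
* `√n (2 d + 3) < n + 2 W` and `(3 + √n) / 2 * (d - √n g) < ∑ max (w i - g) 0`,
* `√n d < W`,
* `n + 2 W b ≤ √n (2 d + 3)` for some `b` with `w i ≤ b + 1` for all `i`.
-/

namespace Pool.Agent.Results.MP_6b2d39_ag.ElevenThirteenPoints

open MvPolynomial

/-- Forms of degree `d` vanishing to order at least `w i` at the points `(P i 0 : P i 1 : 1)`. -/
noncomputable def forms {n : ℕ} (P : Fin n → Fin 2 → ℂ) (d : ℕ) (w : Fin n → ℕ) :
    Submodule ℂ (MvPolynomial (Fin 3) ℂ) :=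
  homogeneousSubmodule (Fin 3) ℂ d ⊓
    Submodule.restrictScalars ℂ
      (⨅ i : Fin n, (Ideal.span {X 0 - C (P i 0) * X 2, X 1 - C (P i 1) * X 2} :
        Ideal (MvPolynomial (Fin 3) ℂ)) ^ (w i))

/-- The system of the forms of degree `d` with multiplicities `w` at the points `P` is not special:
its vector space dimension is `max (0, (d + 2) (d + 1) / 2 - ∑ (w i + 1) (w i) / 2)`. -/
def NonSpecial {n : ℕ} (P : Fin n → Fin 2 → ℂ) (d : ℕ) (w : Fin n → ℕ) : Prop :=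
  (Module.finrank ℂ ↥(forms P d w) : ℤ) =
    max 0 (((d + 2).choose 2 : ℤ) - ∑ i, ((w i + 1).choose 2 : ℤ))

theorem nonSpecial_of {n : ℕ} {P : Fin n → Fin 2 → ℂ} {d : ℕ} {w : Fin n → ℕ}
    (h : Pool.Agent.H932R3.ExpDim ℂ w P d) : NonSpecial P d w := by
  unfold Pool.Agent.H932R3.ExpDim at h
  unfold NonSpecial forms
  rw [h]
  have e : ∑ i, ((w i + 1).choose 2 : ℤ) = ((∑ i, (w i + 1).choose 2 : ℕ) : ℤ) := by
    push_cast
    rfl
  rw [e]
  omega

theorem result (n : ℕ) (hn : n = 11 ∨ n = 13) (w : Fin n → ℕ) :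
    ∃ F : MvPolynomial (Fin n × Fin 2) ℂ, F ≠ 0 ∧
      ∀ P : Fin n → Fin 2 → ℂ, eval (fun ij : Fin n × Fin 2 => P ij.1 ij.2) F ≠ 0 →
        ∀ d : ℕ,
          ((Real.sqrt n * (2 * d + 3) < n + 2 * ∑ i, (w i : ℝ) ∧
              (¬ 3 ∣ d ∨
                (3 + Real.sqrt n) / 2 * (d - Real.sqrt n * (⌊(d : ℝ) / Real.sqrt n⌋₊ : ℕ)) <
                  ∑ i, ((w i - ⌊(d : ℝ) / Real.sqrt n⌋₊ : ℕ) : ℝ))) ∨
            Real.sqrt n * d < ∑ i, (w i : ℝ) ∨
            ∃ b : ℕ, (∀ i, w i ≤ b + 1) ∧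
              n + 2 * ∑ i, ((max (w i) b : ℕ) : ℝ) ≤ Real.sqrt n * (2 * d + 3)) →
          NonSpecial P d w := by
  obtain ⟨F, hF, hF'⟩ := TH759.EV.expDim_arb hn w
  refine ⟨F.map (algebraMap ℚ ℂ), H932R3.map_ne_zero_of hF, fun P hP d hd => ?_⟩
  rw [MvPolynomial.eval_map] at hP
  exact nonSpecial_of (hF' P hP d hd)

end Pool.Agent.Results.MP_6b2d39_ag.ElevenThirteenPoints
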