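import Pool.Agent.TH167.TT.Conv9

set_option autoImplicit false

/-!
# The Harbourne-Hirschowitz conjecture with at most nine multiplicities larger than two

The linear system of plane curves of degree `d` with multiplicities `w i` at general points, where
at most nine of the `w i` are larger than `2` and the others are arbitrary numbers `0, 1, 2`, is
special if and only if it is `(-1)`-special.
-/

namespace Pool.Agent.Results.MP_6b2d39_ag.NineAboveTwo

open MvPolynomial Pool.Agent.TH167 Pool.Agent.TH167.SHDefs

theorem result (r d : ℕ) (w : Fin (r + 4) → ℕ)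
    (hw : (Finset.univ.filter fun i => 2 < w i).card ≤ 9) :
    ∃ F : MvPolynomial (Fin (r + 4) × Fin 2) ℂ, F ≠ 0 ∧
      ∀ P : Fin (r + 4) → Fin 2 → ℂ,
        MvPolynomial.eval (fun ij : Fin (r + 4) × Fin 2 => P ij.1 ij.2) F ≠ 0 →
          (Special P d w ↔ MinusOneSpecial P d w) := by
  obtain ⟨F, hF, h⟩ := TT.hh9_conv d w hw
  exact ⟨F, hF, fun P hP => (h P hP).2⟩

end Pool.Agent.Results.MP_6b2d39_ag.NineAboveTwo
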