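import Mathlib
import Pool.Agent.TH442.NF.HH
import Pool.Agent.TH105.NU.All
import Pool.Agent.TH2.NU.Final
import Pool.Agent.TH759.EV.NDich

set_option autoImplicit false

/-!
# The Harbourne-Hirschowitz conjecture outside of a window, and on Weyl group orbits

Let `n ≥ 10`. A class `(d'; w')` is called good in each of the following cases:

* `√n d' < ∑ w'`;
* `(d'; w')` is standard and `2 d' + 3` lies above a window;
* `(d'; w')` is standard, `w'` consists of numbers `m` and `m + 1`, and `n = 13`, or `m` is small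
  against `n`, or `2 d' + 3` is outside of a window of length less than two;
* `n ≥ 37` and `w'` is uniform, or `w' ≤ M` and the Euler characteristic of `(d'; M, …, M)` is not
  negative;
* `n ≥ N0`, or `n ≥ 144` and `4 ∣ n`: the same for near-uniform vectors.

If finitely many reflections in classes `H - E_i - E_j - E_k` carry `(d; w)` to a good class, then for
general points the linear system `(d; w)` has the expected dimension. For every `(d; w)` and general
points: the linear system `(d; w)` is special if and only if it is `(-1)`-special, unless its reduced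
form is a special standard class which is not good.
-/

namespace Pool.Agent.Results.MP_6b2d39_ag.WeylOrbits

open MvPolynomial Pool.Agent.TH167.SHDefs

/-- For general points the linear system has the expected dimension. -/
def Expected {n : ℕ} (d : ℕ) (w : Fin n → ℕ) : Prop :=
  ∃ F : MvPolynomial (Fin n × Fin 2) ℂ, F ≠ 0 ∧ ∀ P : Fin n → Fin 2 → ℂ,
    MvPolynomial.eval (fun ij : Fin n × Fin 2 => P ij.1 ij.2) F ≠ 0 →
      dimL P d w = max (virtdim d w) (-1)

/-- The reflection of the class `a = (d; w)`, `d H - ∑ w l E l`, in the class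
`H - E (i 0) - E (i 1) - E (i 2)`: with `δ = d - w (i 0) - w (i 1) - w (i 2)`, the numbers
`d`, `w (i 0)`, `w (i 1)`, `w (i 2)` are increased by `δ`. -/
def reflect {n : ℕ} (i : Fin 3 → Fin n) (a : ℤ × (Fin n → ℤ)) : ℤ × (Fin n → ℤ) :=
  (a.1 + (a.1 - a.2 (i 0) - a.2 (i 1) - a.2 (i 2)),
    fun l => a.2 l + if l = i 0 ∨ l = i 1 ∨ l = i 2 then a.1 - a.2 (i 0) - a.2 (i 1) - a.2 (i 2)
      else 0)

/-- Finitely many reflections carry `(d; w)` to `(d'; w')`. -/
def Carries {n : ℕ} (d : ℕ) (w : Fin n → ℕ) (d' : ℕ) (w' : Fin n → ℕ) : Prop :=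
  Relation.ReflTransGen
    (fun a b : ℤ × (Fin n → ℤ) => ∃ i : Fin 3 → Fin n, Function.Injective i ∧ b = reflect i a)
    ((d : ℤ), fun l => (w l : ℤ)) ((d' : ℤ), fun l => (w' l : ℤ))

/-- The class is standard. -/
def Standard {n : ℕ} (d : ℕ) (w : Fin n → ℕ) : Prop :=
  ∀ i j k : Fin n, i ≠ j → i ≠ k → j ≠ k → w i + w j + w k ≤ d

/-- the centre `√n + 2 (∑ w i) / √n` of the window -/
noncomputable def centre {n : ℕ} (w : Fin n → ℕ) : ℝ :=
  √(n : ℝ) + 2 * (∑ i, (w i : ℝ)) / √(n : ℝ)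

/-- The good classes. -/
def Good (N0 : ℕ) {n : ℕ} (d : ℕ) (w : Fin n → ℕ) : Prop :=
  √(n : ℝ) * d < ∑ i, (w i : ℝ) ∨
  (Standard d w ∧ ∃ b : ℕ, (∀ i, w i ≤ b + 1) ∧
    centre w + 2 * ((∑ i, (b - w i) : ℕ) : ℝ) / √(n : ℝ) +
      min (√(n : ℝ) - 3) (2 / 3 + 1 / (4 * √(n : ℝ))) < 2 * (d : ℝ) + 3) ∨
  (Standard d w ∧ ∃ m : ℕ, 1 ≤ m ∧ (∀ i, w i = m ∨ w i = m + 1) ∧
    (n = 13 ∨ (m : ℝ) + 1 ≤ n - 6 * √(n : ℝ) + 11 ∨
      2 * (d : ℝ) + 3 < centre w - min (√(n : ℝ) - 3) (2 / 3 + 9 / (4 * √(n : ℝ))) ∨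
      centre w + min (√(n : ℝ) - 3) (2 / 3 + 1 / (4 * √(n : ℝ))) < 2 * (d : ℝ) + 3)) ∨
  (37 ≤ n ∧ ∃ M : ℕ, (∀ i, w i ≤ M) ∧
    ((∀ i, w i = M) ∨ n * (M + 1).choose 2 ≤ (d + 2).choose 2)) ∨
  ((N0 ≤ n ∨ (144 ≤ n ∧ 4 ∣ n)) ∧ ∃ (m : ℕ) (v : Fin n → ℕ), 1 ≤ m ∧
    (∀ i, v i = m ∨ v i = m + 1) ∧ (∀ i, w i ≤ v i) ∧
    (w = v ∨ ∑ i, (v i + 1).choose 2 ≤ (d + 2).choose 2))

theorem of_open {n : ℕ} {d : ℕ} {w : Fin n → ℕ}
    (h : ∀ {K : Type} [Field K] [CharZero K] {P : Fin n → Fin 2 → K},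
      AlgebraicIndependent ℚ (fun ij : Fin n × Fin 2 => P ij.1 ij.2) →
        Pool.Agent.H932R3.ExpDim K w P d) : Expected d w := by
  obtain ⟨F, hF, hF'⟩ := Pool.Agent.TH442.NF.to_open h
  refine ⟨F.map (algebraMap ℚ ℂ), Pool.Agent.H932R3.map_ne_zero_of hF, fun P hP => ?_⟩
  rw [MvPolynomial.eval_map] at hP
  have h1 : Module.finrank ℂ ↥(sys P d w) =
      Nat.choose (d + 2) 2 - ∑ i, Nat.choose (w i + 1) 2 := hF' (L := ℂ) P hP
  have h2 : ∑ i, ((w i + 1).choose 2 : ℤ) = ((∑ i, Nat.choose (w i + 1) 2 : ℕ) : ℤ) := by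
    push_cast
    rfl
  unfold dimL virtdim
  rw [h1, h2]
  omega

theorem result : ∃ N0 : ℕ, ∀ n : ℕ, 10 ≤ n →
    (∀ (d : ℕ) (w : Fin n → ℕ) (d' : ℕ) (w' : Fin n → ℕ), Carries d w d' w' → Good N0 d' w' →
      Expected d w) ∧
    ∀ (d : ℕ) (w : Fin n → ℕ), ∃ F : MvPolynomial (Fin n × Fin 2) ℂ, F ≠ 0 ∧
      ∀ P : Fin n → Fin 2 → ℂ, MvPolynomial.eval (fun ij : Fin n × Fin 2 => P ij.1 ij.2) F ≠ 0 →
        (MinusOneSpecial P d w → Special P d w) ∧
        (Special P d w → MinusOneSpecial P d w ∨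
          ∃ (d'' : ℕ) (w'' : Fin n → ℕ) (k : ℕ) (G : Fin k → MvPolynomial (Fin 3) ℂ)
            (e : Fin k → ℕ) (u : Fin k → Fin n → ℕ) (N : Fin k → ℕ) (d' : ℕ) (w' : Fin n → ℕ),
            Decomp P d w d'' w'' G e u N ∧
            Relation.ReflTransGen Quadratic (d'', w'') (d', w') ∧ Standard d' w' ∧
            Special P d' w' ∧ ¬ Good N0 d' w') := by
  obtain ⟨N1, hN1⟩ := Pool.Agent.TH105.NU.expDim_near
  -- the orbits of the good classes, at generic points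
  have key : ∀ {n : ℕ}, 10 ≤ n → ∀ {K : Type} [Field K] [CharZero K] {P : Fin n → Fin 2 → K},
      AlgebraicIndependent ℚ (fun ij : Fin n × Fin 2 => P ij.1 ij.2) →
      ∀ {d : ℕ} {w : Fin n → ℕ} {d' : ℕ} {w' : Fin n → ℕ}, Carries d w d' w' →
      Good (max N1 36) d' w' → Pool.Agent.H932R3.ExpDim K w P d := by
    intro n hn K _ _ P hP d w d' w' hc hG
    rcases hG with h | ⟨hs, b, hb, h⟩ | ⟨hs, m, hm, hw', h⟩ | ⟨h37, M, hM, h⟩ |
      ⟨hN, m, v, hm, hv, hw', h⟩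
    · exact Pool.Agent.TH442.NF.up_nagata hn hP hc h
    · exact Pool.Agent.TH442.NF.std_above hn hP hc hs hb h
    · rcases h with h | h
      · subst h
        refine Pool.Agent.TH442.NF.up_enef hP hc
          (Pool.Agent.TH442.NF.enef_of_std (by omega) P hs) ?_
        obtain ⟨F, hF, hF'⟩ := Pool.Agent.TH759.EV.expDim_thirteen hw'
        exact hF' P (fun h0 => hF (hP.eq_zero_of_aeval_eq_zero F h0)) d'
      · exact Pool.Agent.TH442.NF.std_near hn hP hc hs hm hw' h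
    · rcases h with h | h
      · have e : w' = fun _ => M := funext h
        subst e
        exact Pool.Agent.TH442.NF.orbit h37 hP hc
      · exact Pool.Agent.TH442.NF.case_below h37 hP hc hM h
    · rcases hN with hN | ⟨hN, k, rfl⟩
      · obtain ⟨F, hF, hF'⟩ := hN1 n (by omega) m hm v hv (L := K)
        exact Pool.Agent.TH442.NF.below_near (by omega) hP hc hm hv hw'
          (hF' P (fun h0 => hF (hP.eq_zero_of_aeval_eq_zero F h0)) d') h
      · obtain ⟨F, hF, hF'⟩ := Pool.Agent.TH2.NU.near4 (N := k) (by omega) hm hv (L := K)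
        exact Pool.Agent.TH442.NF.below_near (by omega) hP hc hm hv hw'
          (hF' P (fun h0 => hF (hP.eq_zero_of_aeval_eq_zero F h0)) d') h
  refine ⟨max N1 36, fun n hn => ⟨fun d w d' w' hc hG => of_open fun hP => key hn hP hc hG,
    fun d w => ?_⟩⟩
  exact Pool.Agent.TH442.NF.hh_open (by omega) (Q := fun d' w' => Good (max N1 36) d' w')
    (fun hP d1 w1 _ hG => key hn hP Relation.ReflTransGen.refl hG) d w

end Pool.Agent.Results.MP_6b2d39_ag.WeylOrbits
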